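import Pool.Agent.N841.LZ.Stm

/-!
# Project LZ, part AC: from a barely independent family over `ω₁` to a tail-splitting sequence
-/

set_option autoImplicit false

open Set

namespace Pool.Agent.N671.LZAC

open Pool.Agent.N841.LZ

theorem t_AC : S_AC := by
  rintro ⟨𝓘, hinf, -, -, hbare⟩
  let A : ℕ ↪ 𝓘 := hinf.natEmbedding
  refine ⟨fun x => {n | x ∈ (A n).1}, fun R hR => ?_⟩
  let V : ℕ × Bool → Set Om := fun p => {x | ∀ n ∈ R, p.1 ≤ n → (x ∈ (A n).1 ↔ p.2 = false)}
  have hV : ∀ p, (V p).Countable := by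
    rintro ⟨k, i⟩
    have hR' : {n ∈ R | k ≤ n}.Infinite := by
      intro hfin
      refine hR ((hfin.union (Set.finite_lt_nat k)).subset fun n hn => ?_)
      rcases le_or_gt k n with h | h
      · exact Or.inl ⟨hn, h⟩
      · exact Or.inr h
    have hinj : Function.Injective fun n => (A n).1 := fun m n h => A.injective (Subtype.ext h)
    have hsub : (fun n => (A n).1) '' {n ∈ R | k ≤ n} ⊆ 𝓘 := by
      rintro _ ⟨n, -, rfl⟩
      exact (A n).2
    have := hbare _ hsub ((Set.to_countable _).image _) (hR'.image hinj.injOn) (fun _ => i)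
    refine this.mono ?_
    rintro x hx _ ⟨n, hn, rfl⟩
    exact hx n hn.1 hn.2
  refine (Set.countable_iUnion hV).mono ?_
  intro x hx
  have hx' : ¬ Splits {n | x ∈ (A n).1} R := hx
  unfold Splits at hx'
  rw [not_and_or, Set.not_infinite, Set.not_infinite] at hx'
  rw [Set.mem_iUnion]
  rcases hx' with h | h
  · obtain ⟨k, hk⟩ := h.bddAbove
    refine ⟨(k + 1, true), fun n hn hkn => ?_⟩
    simp only [Bool.true_eq_false, iff_false]
    intro hxn
    have := hk ⟨hn, hxn⟩
    have h3 : k + 1 ≤ n := hkn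
    omega
  · obtain ⟨k, hk⟩ := h.bddAbove
    refine ⟨(k + 1, false), fun n hn hkn => ?_⟩
    simp only [iff_true]
    by_contra hxn
    have := hk ⟨hn, hxn⟩
    have h3 : k + 1 ≤ n := hkn
    omega

end Pool.Agent.N671.LZAC
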