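import Pool.Agent.N699.PC.Stm

/-!
# Project Q3, leaf RT4: the numbers of square roots of `3` and `-6` modulo `M = 11 mod 24` agree mod 4
-/

set_option autoImplicit false

namespace Pool.Agent.N671.Q3

open Finset Pool.Agent.N699.PC

/-- the number of square roots of `D` in `ZMod M` -/
noncomputable def N (D : ℤ) (M : ℕ) : ℕ := Nat.card {z : ZMod M // z ^ 2 = (D : ZMod M)}

lemma rt_eq (D : ℤ) (M : ℕ) [NeZero M] : rt D M = N D M := by
  unfold rt N
  have e : {z // z ∈ (range M).filter (fun z : ℕ => (M : ℤ) ∣ (z : ℤ) ^ 2 - D)} ≃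
      {z : ZMod M // z ^ 2 = (D : ZMod M)} := by
    refine
      { toFun := fun z => ⟨(z.1 : ZMod M), ?_⟩
        invFun := fun z => ⟨z.1.val, ?_⟩
        left_inv := ?_
        right_inv := ?_ }
    · have hz := (Finset.mem_filter.1 z.2).2
      rw [← ZMod.intCast_zmod_eq_zero_iff_dvd] at hz
      push_cast at hz
      exact sub_eq_zero.1 hz
    · rw [Finset.mem_filter, Finset.mem_range]
      refine ⟨ZMod.val_lt z.1, ?_⟩
      rw [← ZMod.intCast_zmod_eq_zero_iff_dvd]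
      push_cast
      rw [ZMod.natCast_zmod_val, z.2, sub_self]
    · rintro ⟨z, hz⟩
      apply Subtype.ext
      exact ZMod.val_cast_of_lt (Finset.mem_range.1 (Finset.mem_filter.1 hz).1)
    · rintro ⟨z, hz⟩
      apply Subtype.ext
      exact ZMod.natCast_zmod_val z
  rw [← Nat.card_congr e, Nat.card_eq_fintype_card, Fintype.card_coe]

lemma N_mul (D : ℤ) {a b : ℕ} (h : a.Coprime b) : N D (a * b) = N D a * N D b := by
  unfold N
  rw [← Nat.card_prod]
  refine Nat.card_congr ?_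
  have e := ZMod.chineseRemainder h
  refine
    { toFun := fun z => (⟨(e z.1).1, ?_⟩, ⟨(e z.1).2, ?_⟩)
      invFun := fun z => ⟨e.symm (z.1.1, z.2.1), ?_⟩
      left_inv := ?_
      right_inv := ?_ }
  · have := congrArg (fun x => (e x).1) z.2
    simpa using this
  · have := congrArg (fun x => (e x).2) z.2
    simpa using this
  · apply e.injective
    rw [map_pow, e.apply_symm_apply]
    ext
    · simpa using z.1.2
    · simpa using z.2.2
  · rintro ⟨z, hz⟩
    apply Subtype.ext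
    simp
  · rintro ⟨⟨z, hz⟩, ⟨w, hw⟩⟩
    simp

lemma N_even (D : ℤ) {M : ℕ} (h1 : M ≠ 1) (h2 : Nat.Coprime 2 M) (h3 : ¬ (M : ℤ) ∣ D) :
    2 ∣ N D M := by
  have hM : M ≠ 0 := by rintro rfl; simp at h2
  have : NeZero M := ⟨hM⟩
  classical
  unfold N
  rw [Nat.card_eq_fintype_card, Fintype.card_subtype]
  set s := (Finset.univ : Finset (ZMod M)).filter (fun z => z ^ 2 = (D : ZMod M)) with hs
  have key : ∑ _z ∈ s, (1 : ZMod 2) = 0 := by
    refine Finset.sum_involution (fun z _ => -z) ?_ ?_ ?_ ?_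
    · intro z _; decide
    · intro z hz _ hzz
      have hz' := (Finset.mem_filter.1 hz).2
      have h2z : (2 : ZMod M) * z = 0 := by
        have : z + z = 0 := by nth_rewrite 1 [← hzz]; ring
        rw [two_mul]; exact this
      have hu : IsUnit (2 : ZMod M) := by
        have := (ZMod.isUnit_iff_coprime 2 M).2 h2
        simpa using this
      have hz0 : z = 0 := by
        have := (IsUnit.mul_right_eq_zero hu).1 h2z
        exact this
      rw [hz0] at hz'
      apply h3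
      rw [← ZMod.intCast_zmod_eq_zero_iff_dvd]
      rw [← hz']; ring
    · intro z hz
      rw [hs, Finset.mem_filter] at hz ⊢
      exact ⟨Finset.mem_univ _, by rw [neg_sq]; exact hz.2⟩
    · intro z _; exact neg_neg z
  rw [Finset.sum_const, nsmul_eq_mul, mul_one] at key
  exact (ZMod.natCast_eq_zero_iff _ 2).1 key

lemma sq_neg_two {p k : ℕ} (hp : p.Prime) (h8 : p % 8 = 3) :
    ∃ s : ZMod (p ^ (k + 1)), s ^ 2 = -2 := by
  have : Fact p.Prime := ⟨hp⟩
  have : NeZero (p ^ (k + 1)) := ⟨pow_ne_zero _ hp.ne_zero⟩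
  have hp2 : p ≠ 2 := by rintro rfl; simp at h8
  obtain ⟨s, hs⟩ := (ZMod.exists_sq_eq_neg_two_iff hp2).2 (Or.inr h8)
  have hdvd : ((p : ℕ) : ℤ) ∣ ((s.val : ℤ) ^ 2) - (-2) := by
    rw [← ZMod.intCast_zmod_eq_zero_iff_dvd]
    push_cast
    rw [ZMod.natCast_zmod_val, pow_two, ← hs]; ring
  have h1 := dvd_sub_pow_of_dvd_sub (R := ℤ) hdvd k
  have h2 : ((((s.val : ℤ) ^ 2) ^ p ^ k - (-2) ^ p ^ k : ℤ) : ZMod (p ^ (k + 1))) = 0 := by
    rw [ZMod.intCast_zmod_eq_zero_iff_dvd]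
    push_cast
    exact_mod_cast h1
  have hodd : Odd (p ^ k) := Odd.pow (hp.odd_of_ne_two hp2)
  obtain ⟨m, hm⟩ := hodd
  have hcop : Nat.Coprime 2 (p ^ (k + 1)) :=
    Nat.Coprime.pow_right _ ((Nat.coprime_primes Nat.prime_two hp).2 (Ne.symm hp2))
  have hu : IsUnit (2 : ZMod (p ^ (k + 1))) := by
    have := (ZMod.isUnit_iff_coprime 2 (p ^ (k + 1))).2 hcop
    simpa using this
  obtain ⟨u, huv⟩ := hu.neg.pow m
  refine ⟨((s.val : ZMod (p ^ (k + 1))) ^ p ^ k) * ((u⁻¹ : (ZMod (p ^ (k + 1)))ˣ) : ZMod (p ^ (k + 1))), ?_⟩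
  push_cast at h2
  have h3 : ((s.val : ZMod (p ^ (k + 1))) ^ p ^ k) ^ 2 = -2 * (u : ZMod (p ^ (k + 1))) ^ 2 := by
    rw [huv, ← pow_mul, mul_comm (p ^ k) 2, pow_mul, sub_eq_zero.1 h2, hm]
    ring
  rw [mul_pow, h3, mul_assoc, ← mul_pow, Units.mul_inv, one_pow, mul_one]

lemma N_eq {M : ℕ} (h2 : Nat.Coprime 2 M) (s : ZMod M) (hs : s ^ 2 = -2) : N 3 M = N (-6) M := by
  have hu : IsUnit (2 : ZMod M) := by
    have := (ZMod.isUnit_iff_coprime 2 M).2 h2
    simpa using this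
  have hus : IsUnit (s * s) := by rw [← pow_two, hs]; exact hu.neg
  obtain ⟨u, rfl⟩ := isUnit_of_mul_isUnit_left hus
  have hinv : (((u⁻¹ : (ZMod M)ˣ) : ZMod M)) ^ 2 * (-2) = 1 := by
    rw [← hs, ← mul_pow, Units.inv_mul, one_pow]
  unfold N
  refine Nat.card_congr
    { toFun := fun z => ⟨u * z.1, ?_⟩
      invFun := fun z => ⟨((u⁻¹ : (ZMod M)ˣ) : ZMod M) * z.1, ?_⟩
      left_inv := ?_
      right_inv := ?_ }
  · rw [mul_pow, hs, z.2]; push_cast; ring
  · rw [mul_pow, z.2]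
    have h : (((-6 : ℤ)) : ZMod M) = (-2) * 3 := by push_cast; ring
    rw [h, ← mul_assoc, hinv]; push_cast; ring
  · rintro ⟨z, hz⟩
    apply Subtype.ext
    simp
  · rintro ⟨z, hz⟩
    apply Subtype.ext
    simp

theorem t_RT4 : RT4 := by
  intro M hM
  have hM0 : M ≠ 0 := by omega
  have hM1 : M ≠ 1 := by omega
  have : NeZero M := ⟨hM0⟩
  rw [rt_eq, rt_eq]
  have hp := Nat.minFac_prime hM1
  set p := M.minFac with hpdef
  have hpM : p ∣ M := Nat.minFac_dvd M
  obtain ⟨e, r, hr, hMr⟩ := Nat.exists_eq_pow_mul_and_not_dvd hM0 p hp.ne_one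
  have he : e ≠ 0 := by
    rintro rfl
    rw [pow_zero, one_mul] at hMr
    exact hr (hMr ▸ hpM)
  have hodd : M % 2 = 1 := by omega
  have h3 : M % 3 = 2 := by omega
  -- divisors of `M` are odd and prime to 3
  have hdiv : ∀ d, d ∣ M → Nat.Coprime 2 d := by
    intro d hd
    rw [Nat.coprime_two_left]
    rcases Nat.even_or_odd d with h | h
    · exfalso
      have : 2 ∣ M := (even_iff_two_dvd.1 h).trans hd
      omega
    · exact h
  have hdiv3 : ∀ d, d ∣ M → Nat.Coprime 3 d := by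
    intro d hd
    rw [Nat.Prime.coprime_iff_not_dvd Nat.prime_three]
    intro h
    have : 3 ∣ M := h.trans hd
    omega
  have hnd : ∀ d, d ∣ M → d ≠ 1 → ¬ (d : ℤ) ∣ 3 ∧ ¬ (d : ℤ) ∣ -6 := by
    intro d hd hd1
    constructor
    · intro h
      have h' : d ∣ 3 := by exact_mod_cast h
      exact hd1 (Nat.eq_one_of_dvd_coprimes (hdiv3 d hd) h' (dvd_refl d))
    · intro h
      have h' : d ∣ 6 := by
        have : (d : ℤ) ∣ 6 := (dvd_neg.1 h)
        exact_mod_cast this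
      have h6 : Nat.Coprime 6 d := by
        have := Nat.Coprime.mul_left (hdiv d hd) (hdiv3 d hd)
        simpa using this
      exact hd1 (Nat.eq_one_of_dvd_coprimes h6 h' (dvd_refl d))
  have hcop : Nat.Coprime (p ^ e) r := Nat.Coprime.pow_left e ((Nat.Prime.coprime_iff_not_dvd hp).2 hr)
  by_cases hr1 : r = 1
  · -- prime power
    subst hr1
    rw [mul_one] at hMr
    obtain ⟨k, rfl⟩ : ∃ k, e = k + 1 := ⟨e - 1, by omega⟩
    have hp8 : p % 8 = 3 := by
      have hpodd : p % 2 = 1 := by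
        have := hdiv p hpM
        rw [Nat.coprime_two_left] at this
        exact Nat.odd_iff.1 this
      have hsq : p ^ 2 % 8 = 1 := by
        have h : p % 8 = 1 ∨ p % 8 = 3 ∨ p % 8 = 5 ∨ p % 8 = 7 := by omega
        rw [Nat.pow_mod]
        rcases h with h | h | h | h <;> rw [h]
      have hM8 : M % 8 = 3 := by omega
      rcases Nat.even_or_odd' (k + 1) with ⟨m, hm | hm⟩
      · exfalso
        rw [hm, pow_mul] at hMr
        rw [hMr, Nat.pow_mod, hsq, one_pow] at hM8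
        norm_num at hM8
      · rw [hm, pow_succ, pow_mul] at hMr
        rw [hMr, Nat.mul_mod, Nat.pow_mod, hsq, one_pow] at hM8
        simpa using hM8
    obtain ⟨s, hs⟩ := sq_neg_two (k := k) hp hp8
    have hc2 := hdiv M (dvd_refl M)
    rw [hMr] at hc2
    rw [hMr, N_eq hc2 s hs, sub_self]
    exact dvd_zero 4
  · -- two coprime factors
    have h1 : p ^ e ≠ 1 := by
      intro h
      have := Nat.one_lt_pow he hp.one_lt
      omega
    have hd1 : p ^ e ∣ M := ⟨r, hMr⟩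
    have hd2 : r ∣ M := ⟨p ^ e, by rw [mul_comm]; exact hMr⟩
    have a1 := N_even 3 h1 (hdiv _ hd1) (hnd _ hd1 h1).1
    have a2 := N_even 3 hr1 (hdiv _ hd2) (hnd _ hd2 hr1).1
    have b1 := N_even (-6) h1 (hdiv _ hd1) (hnd _ hd1 h1).2
    have b2 := N_even (-6) hr1 (hdiv _ hd2) (hnd _ hd2 hr1).2
    rw [hMr, N_mul 3 hcop, N_mul (-6) hcop]
    have c1 : (4 : ℤ) ∣ ((N 3 (p ^ e) * N 3 r : ℕ) : ℤ) := by
      have := mul_dvd_mul a1 a2
      exact_mod_cast this
    have c2 : (4 : ℤ) ∣ ((N (-6) (p ^ e) * N (-6) r : ℕ) : ℤ) := by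
      have := mul_dvd_mul b1 b2
      exact_mod_cast this
    exact dvd_sub c1 c2

end Pool.Agent.N671.Q3
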